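import Pool.Agent.Lib.MP_4ae430_nt.Q.Final

/-!
# Equal products of two disjoint blocks of consecutive integers: lengths with a common factor

For every `ε > 0` only finitely many solutions of `(m₁+1)...(m₁+k₁) = (m₂+1)...(m₂+k₂)`, `k₁, k₂ > 3`, `m₁ + k₁ ≤ m₂`, have
`g = gcd(k₁,k₂) ≥ 2` and `g * min(k₂, k₁-k₂) * min(k₂, k₁-k₂, |k₁-2k₂|) ≥ ε k₁ k₂ log k₁`.
-/

set_option autoImplicit false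

namespace Pool.Agent.Results.MP_4ae430_nt.CommonFactor

theorem result (ε : ℝ) (hε : 0 < ε) :
    {(m₁, k₁, m₂, k₂) : ℕ × ℕ × ℕ × ℕ |
      ∏ i ∈ Finset.Icc 1 k₁, (m₁ + i) = ∏ j ∈ Finset.Icc 1 k₂, (m₂ + j) ∧ 3 < k₁ ∧ 3 < k₂ ∧ m₁ + k₁ ≤ m₂ ∧
        2 ≤ Nat.gcd k₁ k₂ ∧
        ε * (k₁ : ℝ) * (k₂ : ℝ) * Real.log (k₁ : ℝ) ≤
          (Nat.gcd k₁ k₂ : ℝ) * min (k₂ : ℝ) ((k₁ : ℝ) - (k₂ : ℝ)) *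
            min (k₂ : ℝ) (min ((k₁ : ℝ) - (k₂ : ℝ)) |(k₁ : ℝ) - 2 * (k₂ : ℝ)|)}.Finite := by
  refine (Rng.common_factor ε hε).subset ?_
  rintro ⟨m₁, k₁, m₂, k₂⟩ ⟨h0, h1, h2, h3, h4, h5⟩
  exact ⟨⟨h0, h1, h2, h3⟩, h4, h5⟩

end Pool.Agent.Results.MP_4ae430_nt.CommonFactor
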