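import Pool.Agent.Lib.MP_4ae430_nt.R.Final

/-!
# Equal products of two disjoint blocks of consecutive integers: a dichotomy

For every `η > 0` all but finitely many solutions of `(m₁+1)...(m₁+k₁) = (m₂+1)...(m₂+k₂)`, `k₁, k₂ > 3`, `m₁ + k₁ ≤ m₂`, satisfy
`k₂ ≤ η log(m₁+k₁)`, or `k₁ - k₂ ≤ η log(m₁+k₁)` and `k₁ ≤ (m₁+k₁)^η`.
-/

set_option autoImplicit false

namespace Pool.Agent.Results.MP_4ae430_nt.Dichotomy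

theorem result (η : ℝ) (hη : 0 < η) :
    {(m₁, k₁, m₂, k₂) : ℕ × ℕ × ℕ × ℕ |
      ∏ i ∈ Finset.Icc 1 k₁, (m₁ + i) = ∏ j ∈ Finset.Icc 1 k₂, (m₂ + j) ∧ 3 < k₁ ∧ 3 < k₂ ∧ m₁ + k₁ ≤ m₂ ∧
        ¬ ((k₂ : ℝ) ≤ η * Real.log ((m₁ : ℝ) + (k₁ : ℝ)) ∨
          ((k₁ : ℝ) - (k₂ : ℝ) ≤ η * Real.log ((m₁ : ℝ) + (k₁ : ℝ)) ∧
            (k₁ : ℝ) ≤ ((m₁ : ℝ) + (k₁ : ℝ)) ^ η))}.Finite := by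
  refine (Rid.dichotomy η hη).subset ?_
  rintro ⟨m₁, k₁, m₂, k₂⟩ ⟨h0, h1, h2, h3, h4⟩
  exact ⟨⟨h0, h1, h2, h3⟩, h4⟩

end Pool.Agent.Results.MP_4ae430_nt.Dichotomy
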