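import Pool.Agent.Lib.MP_4ae430_nt.Q.R3
import Pool.Agent.Lib.MP_4ae430_nt.R.Final

/-!
# Equal products of two disjoint blocks of consecutive integers: an explicit bound when the lengths have a common factor

Every solution of `(m₁+1)...(m₁+k₁) = (m₂+1)...(m₂+k₂)`, `k₁, k₂ > 3`, `m₁ + k₁ ≤ m₂`, with `g = gcd(k₁,k₂) ≥ 2` satisfies
`g * min(k₂, k₁-k₂, |k₁-2k₂|) * log(m₁+k₁) ≤ 13 k₁ k₂ log(6 k₁)`.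
-/

set_option autoImplicit false

namespace Pool.Agent.Results.MP_4ae430_nt.ExplicitBound

open Pool.Agent.Lib.MP_4ae430_nt

theorem result (m₁ k₁ m₂ k₂ : ℕ) (hk₁ : 3 < k₁) (hk₂ : 3 < k₂) (hm : m₁ + k₁ ≤ m₂)
    (h : ∏ i ∈ Finset.Icc 1 k₁, (m₁ + i) = ∏ j ∈ Finset.Icc 1 k₂, (m₂ + j)) (hg : 2 ≤ Nat.gcd k₁ k₂) :
    (Nat.gcd k₁ k₂ : ℝ) * min (k₂ : ℝ) (min ((k₁ : ℝ) - (k₂ : ℝ)) |(k₁ : ℝ) - 2 * (k₂ : ℝ)|) *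
        Real.log ((m₁ : ℝ) + (k₁ : ℝ)) ≤
      13 * (k₁ : ℝ) * (k₂ : ℝ) * Real.log (6 * (k₁ : ℝ)) :=
  Rng.explicit_bound m₁ k₁ m₂ k₂ (by omega) (Rid.sol_lt ⟨h, hk₁, hk₂, hm⟩) hg hm h

end Pool.Agent.Results.MP_4ae430_nt.ExplicitBound
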